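import Mathlib

set_option autoImplicit false
set_option maxHeartbeats 400000

open Matrix Equiv

namespace Pool.Agent.Results.MP_af3a77_al.NotFG

/-- the action of a unitary matrix on vectors. -/
noncomputable def app {n : ℕ} (U : unitaryGroup (Fin n) ℂ) (v : Fin n → ℂ) : Fin n → ℂ :=
  (U : Matrix (Fin n) (Fin n) ℂ) *ᵥ v

/-- finite-dimensional unitary representations of `G` on `ℂⁿ`. -/
abbrev URep (G : Type) [Group G] (n : ℕ) := G →* unitaryGroup (Fin n) ℂ

/-- the action of `g` on vectors through the representation `ψ`. -/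
noncomputable def ract {G : Type} [Group G] {n : ℕ} (ψ : URep G n) (g : G) (v : Fin n → ℂ) :
    Fin n → ℂ := app (ψ g) v

/-- `e` commutes with the actions of `H` on `ψ` and on the direct sum of the `Y j`. -/
def RepEquivariant {G : Type} [Group G] (H : Subgroup G) {n m : ℕ} (ψ : URep G n)
    (d : Fin m → ℕ) (Y : ∀ j, URep G (d j)) (e : (Fin n → ℂ) → ∀ j, Fin (d j) → ℂ) : Prop :=
  ∀ h ∈ H, ∀ v j, e (ract ψ h v) j = ract (Y j) h (e v j)

/-- The restriction of `ψ` to `H` is isomorphic to the direct sum of the restrictions of the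
`Y j`. -/
def RepIsoSum {G : Type} [Group G] (H : Subgroup G) {n m : ℕ} (ψ : URep G n) (d : Fin m → ℕ)
    (Y : ∀ j, URep G (d j)) : Prop :=
  ∃ e : (Fin n → ℂ) ≃ₗ[ℂ] (∀ j, Fin (d j) → ℂ), RepEquivariant H ψ d Y e

/-- Setting (R): `i^*(Λ⁺(G))` is generated under addition by finitely many of its elements. -/
def FGRep (G : Type) [Group G] (H : Subgroup G) : Prop :=
  ∃ (r : ℕ) (d : Fin r → ℕ) (Y : ∀ i, URep G (d i)), ∀ (n : ℕ) (ψ : URep G n),
    ∃ (m : ℕ) (f : Fin m → Fin r), RepIsoSum H ψ (fun j => d (f j)) (fun j => Y (f j))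

/-- the action of `g` on points through the permutation representation `ψ`. -/
def pact {G X : Type} [Group G] (ψ : G →* Perm X) (g : G) (x : X) : X := ψ g x

/-- The restriction of the action `ψ` to `H` is isomorphic to the disjoint union of the
restrictions of the actions `Y j`. -/
def ActIsoSum {G : Type} [Group G] (H : Subgroup G) {X : Type} {m : ℕ} (ψ : G →* Perm X)
    (d : Fin m → ℕ) (Y : ∀ j, G →* Perm (Fin (d j))) : Prop :=
  ∃ e : X ≃ (Σ j, Fin (d j)), ∀ h ∈ H, ∀ x,
    e (pact ψ h x) = ⟨(e x).1, pact (Y (e x).1) h (e x).2⟩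

/-- Setting (A): `i^*(Λ⁺(G))` is generated under addition by finitely many of its elements. -/
def FGAct (G : Type) [Group G] (H : Subgroup G) : Prop :=
  ∃ (r : ℕ) (d : Fin r → ℕ) (Y : ∀ i, G →* Perm (Fin (d i))),
    ∀ (n : ℕ) (ψ : G →* Perm (Fin n)),
      ∃ (m : ℕ) (f : Fin m → Fin r), ActIsoSum H ψ (fun j => d (f j)) (fun j => Y (f j))

def hw {K : Type} [Group K] (x y : K) : K := (y * y)⁻¹ * (x * y * x⁻¹)

def Rel {K : Type} [Group K] (x y b z : K) : Prop :=
  z * z = 1 ∧ z * x = x * z ∧ z * y = y * z ∧ y * b = z * b * y ∧ hw x y * hw x y = 1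

def rels : Set (FreeGroup (Fin 4)) :=
  {FreeGroup.of 3 * FreeGroup.of 3,
   FreeGroup.of 3 * FreeGroup.of 0 * (FreeGroup.of 0 * FreeGroup.of 3)⁻¹,
   FreeGroup.of 3 * FreeGroup.of 1 * (FreeGroup.of 1 * FreeGroup.of 3)⁻¹,
   FreeGroup.of 1 * FreeGroup.of 2 * (FreeGroup.of 3 * FreeGroup.of 2 * FreeGroup.of 1)⁻¹,
   hw (FreeGroup.of 0) (FreeGroup.of 1) * hw (FreeGroup.of 0) (FreeGroup.of 1)}

abbrev G := PresentedGroup rels
def x : G := PresentedGroup.of 0
def y : G := PresentedGroup.of 1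
def b : G := PresentedGroup.of 2
def z : G := PresentedGroup.of 3

theorem map_hw {K L : Type} [Group K] [Group L] (φ : K →* L) (x y : K) :
    φ (hw x y) = hw (φ x) (φ y) := by simp [hw]

theorem relG : Rel x y b z := by
  have h : ∀ r ∈ rels, PresentedGroup.mk rels r = 1 := fun r hr => PresentedGroup.one_of_mem hr
  refine ⟨h _ (Or.inl rfl), ?_, ?_, ?_, ?_⟩
  · exact mul_inv_eq_one.1 (h _ (Or.inr (Or.inl rfl)))
  · exact mul_inv_eq_one.1 (h _ (Or.inr (Or.inr (Or.inl rfl))))
  · exact mul_inv_eq_one.1 (h _ (Or.inr (Or.inr (Or.inr (Or.inl rfl)))))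
  · exact h _ (Or.inr (Or.inr (Or.inr (Or.inr rfl))))

theorem Rel.map {K L : Type} [Group K] [Group L] (φ : K →* L) {x y b z : K} (h : Rel x y b z) :
    Rel (φ x) (φ y) (φ b) (φ z) := by
  obtain ⟨h1, h2, h3, h4, h5⟩ := h
  refine ⟨?_, ?_, ?_, ?_, ?_⟩
  · rw [← map_mul, h1, map_one]
  · rw [← map_mul, h2, map_mul]
  · rw [← map_mul, h3, map_mul]
  · rw [← map_mul, h4, map_mul, map_mul]
  · rw [← map_hw, ← map_mul, h5, map_one]

theorem lift {K : Type} [Group K] {x' y' b' z' : K} (h : Rel x' y' b' z') :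
    ∃ φ : G →* K, φ x = x' ∧ φ y = y' ∧ φ b = b' ∧ φ z = z' := by
  obtain ⟨h1, h2, h3, h4, h5⟩ := h
  refine ⟨PresentedGroup.toGroup (f := ![x', y', b', z']) ?_, PresentedGroup.toGroup.of _,
    PresentedGroup.toGroup.of _, PresentedGroup.toGroup.of _, PresentedGroup.toGroup.of _⟩
  rintro r (rfl | rfl | rfl | rfl | rfl)
  · simpa using h1
  · simp [h2]
  · simp [h3]
  · simp [h4]
  · rw [map_mul, map_hw]; simpa using h5

def H : Subgroup G := Subgroup.closure {z, hw x y}

theorem finH : Finite H := by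
  obtain ⟨h1, h2, h3, -, h5⟩ := relG
  have c : Commute z (hw x y) :=
    ((Commute.mul_right h3 h3).inv_right).mul_right
      ((Commute.mul_right h2 h3).mul_right (Commute.inv_right h2))
  have : (H : Set G) ⊆ Set.range fun p : Fin 2 × Fin 2 => z ^ (p.1 : ℕ) * hw x y ^ (p.2 : ℕ) := by
    have red : ∀ (u : G), u * u = 1 → ∀ k : ℕ, ∃ i : Fin 2, u ^ k = u ^ (i : ℕ) := fun u hu k =>
      ⟨⟨k % 2, Nat.mod_lt _ two_pos⟩, pow_eq_pow_mod k (by rw [pow_two, hu])⟩
    have key : ∀ g ∈ H, ∃ k l : ℕ, g = z ^ k * hw x y ^ l := by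
      intro g hg
      induction hg using Subgroup.closure_induction with
      | mem g h =>
        rcases h with rfl | rfl
        · exact ⟨1, 0, by simp⟩
        · exact ⟨0, 1, by simp⟩
      | one => exact ⟨0, 0, by simp⟩
      | mul g g' _ _ hg hg' =>
        obtain ⟨k, l, rfl⟩ := hg
        obtain ⟨k', l', rfl⟩ := hg'
        exact ⟨k + k', l + l', by
          rw [pow_add, pow_add]; exact ((c.pow_pow k' l).symm).mul_mul_mul_comm _ _⟩
      | inv g _ hg =>
        obtain ⟨k, l, rfl⟩ := hg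
        refine ⟨k, l, ?_⟩
        rw [inv_eq_iff_mul_eq_one, ((c.pow_pow k l).symm).mul_mul_mul_comm, ← (Commute.refl z).mul_pow,
          ← (Commute.refl (hw x y)).mul_pow, h1, h5, one_pow, one_pow, one_mul]
    intro g hg
    obtain ⟨k, l, rfl⟩ := key g hg
    obtain ⟨i, hi⟩ := red z h1 k
    obtain ⟨j, hj⟩ := red _ h5 l
    exact ⟨(i, j), by rw [hi, hj]⟩
  exact (Set.finite_range _).subset this

theorem fin_kill {K : Type} [Group K] [Finite K] {x y b z : K} (h : Rel x y b z)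
    (h1 : hw x y = 1) : z = 1 := by
  obtain ⟨z2, -, zy, yb, -⟩ := h
  have e : x * y * x⁻¹ = y ^ 2 := by rw [pow_two]; exact (inv_mul_eq_one.1 h1).symm
  have o : orderOf (y ^ 2) = orderOf y := by
    rw [← e]; exact (MulAut.conj x).orderOf_eq y
  rw [orderOf_pow' _ two_ne_zero] at o
  have pos := orderOf_pos y
  have odd : Odd (orderOf y) := by
    rw [← Nat.not_even_iff_odd, even_iff_two_dvd]
    intro hd
    rw [Nat.gcd_eq_right hd] at o
    omega
  have pw : ∀ k : ℕ, y ^ k * b = z ^ k * b * y ^ k := by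
    intro k
    induction k with
    | zero => simp
    | succ k ih =>
      have c : Commute (z ^ k) y := Commute.pow_left zy k
      calc y ^ (k + 1) * b = y * (y ^ k * b) := by rw [pow_succ', mul_assoc]
        _ = (y * z ^ k) * b * y ^ k := by rw [ih]; simp only [mul_assoc]
        _ = z ^ k * (y * b) * y ^ k := by rw [← c.eq]; simp only [mul_assoc]
        _ = z ^ (k + 1) * b * y ^ (k + 1) := by rw [yb, pow_succ, pow_succ']; simp only [mul_assoc]
  have := pw (orderOf y)
  obtain ⟨k, hk⟩ := odd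
  rw [pow_orderOf_eq_one, hk, pow_succ, pow_mul, pow_two, z2] at this
  simpa using this

theorem rep_kill {n : ℕ} {x y b z : unitaryGroup (Fin n) ℂ} (h : Rel x y b z)
    (h1 : hw x y = 1) (hz : z = -1) : n = 0 := by
  by_contra hn
  have : Nonempty (Fin n) := ⟨⟨0, Nat.pos_of_ne_zero hn⟩⟩
  obtain ⟨-, -, -, yb, -⟩ := h
  have e : x * y * x⁻¹ = y ^ 2 := by rw [pow_two]; exact (inv_mul_eq_one.1 h1).symm
  have e2 : b⁻¹ * y * b⁻¹⁻¹ = -y := by
    rw [inv_inv, mul_assoc, yb, hz]; simp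
  have conj : ∀ u : unitaryGroup (Fin n) ℂ,
      spectrum ℂ ((u * y * u⁻¹ : unitaryGroup (Fin n) ℂ) : Matrix (Fin n) (Fin n) ℂ) =
        spectrum ℂ (y : Matrix (Fin n) (Fin n) ℂ) := fun u =>
    spectrum.units_conjugate (u := Unitary.toUnits u)
  have s1 := conj x
  have s2 := conj b⁻¹
  rw [e, SubmonoidClass.coe_pow, spectrum.map_pow_of_pos _ two_pos] at s1
  rw [e2, Unitary.coe_neg, ← spectrum.neg_eq] at s2
  have fin := Matrix.finite_spectrum (y : Matrix (Fin n) (Fin n) ℂ)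
  obtain ⟨c, hc⟩ := spectrum.nonempty_of_isAlgClosed_of_finiteDimensional ℂ
    (y : Matrix (Fin n) (Fin n) ℂ)
  have inj := ((fin.surjOn_iff_bijOn_of_mapsTo (f := (· ^ 2))
    (fun a ha => s1 ▸ Set.mem_image_of_mem _ ha)).1 s1.ge).injOn
  have hc' : -c ∈ spectrum ℂ (y : Matrix (Fin n) (Fin n) ℂ) := by
    rw [← s2]; simpa using hc
  have h0 : c = 0 := by
    have := inj hc hc' (by simp)
    linear_combination (1 / 2 : ℂ) * this
  rw [h0, spectrum.zero_mem_iff] at hc
  exact hc (Unitary.toUnits y).isUnit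

noncomputable def sy (M : ℕ) : Perm (Fin (2 * M + 2)) :=
  Equiv.ofBijective (fun i => ⟨if i.1 + 1 < 2 * M + 2 then i.1 + 1 else 0, by split_ifs <;> omega⟩)
    (Finite.injective_iff_bijective.1 fun i j h => by
      have h1 := i.2
      have h2 := j.2
      rw [Fin.mk.injEq] at h
      apply Fin.ext
      split_ifs at h <;> omega)

noncomputable def sx (M : ℕ) : Perm (Fin (2 * M + 2)) :=
  Equiv.ofBijective (fun i => ⟨if 2 * i.1 < 2 * M + 2 then 2 * i.1 else 2 * i.1 - (2 * M + 1), by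
      have := i.2
      split_ifs <;> omega⟩)
    (Finite.injective_iff_bijective.1 fun i j h => by
      have h1 := i.2
      have h2 := j.2
      rw [Fin.mk.injEq] at h
      apply Fin.ext
      split_ifs at h <;> omega)

theorem sy_val (M : ℕ) (i : Fin (2 * M + 2)) :
    (sy M i).1 = if i.1 + 1 < 2 * M + 2 then i.1 + 1 else 0 := rfl

theorem sx_val (M : ℕ) (i : Fin (2 * M + 2)) :
    (sx M i).1 = if 2 * i.1 < 2 * M + 2 then 2 * i.1 else 2 * i.1 - (2 * M + 1) := rfl

def p (M : ℕ) : Fin (2 * M + 2) := ⟨2 * M, by omega⟩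
def q (M : ℕ) : Fin (2 * M + 2) := ⟨2 * M + 1, by omega⟩

theorem sw_val (M : ℕ) (i : Fin (2 * M + 2)) : (Equiv.swap (p M) (q M) i).1 =
    if i.1 = 2 * M then 2 * M + 1 else if i.1 = 2 * M + 1 then 2 * M else i.1 := by
  rw [swap_apply_def]
  simp only [Fin.ext_iff, p, q]
  split_ifs <;> rfl

theorem hw_s (M : ℕ) : hw (sx M) (sy M) = Equiv.swap (p M) (q M) := by
  rw [hw, inv_mul_eq_iff_eq_mul, mul_inv_eq_iff_eq_mul]
  ext i
  have := i.2
  simp only [Perm.mul_apply, sy_val, sx_val, sw_val]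
  split_ifs <;> omega

theorem sy_par (M : ℕ) (i : Fin (2 * M + 2)) : (sy M i).1 % 2 = (i.1 + 1) % 2 := by
  have := i.2
  rw [sy_val]; split_ifs <;> omega

def fstHom (X W : Type) : Perm X →* Perm (X × W) where
  toFun σ := prodCongr σ (Equiv.refl W)
  map_one' := rfl
  map_mul' _ _ := rfl

def bb (M : ℕ) : Perm (Fin (2 * M + 2) × ZMod 2) :=
  prodCongrRight fun i => Equiv.addRight ((i.1 : ℕ) : ZMod 2)

def zz (M : ℕ) : Perm (Fin (2 * M + 2) × ZMod 2) := prodCongr (Equiv.refl _) (Equiv.addRight 1)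

theorem relA (M : ℕ) : Rel (fstHom _ _ (sx M)) (fstHom _ _ (sy M)) (bb M) (zz M) := by
  refine ⟨?_, rfl, rfl, ?_, ?_⟩
  · ext ⟨i, e⟩
    · rfl
    · show e + 1 + 1 = e
      revert e; decide
  · ext ⟨i, e⟩
    · rfl
    · show e + (i.1 : ZMod 2) = e + ((sy M i).1 : ZMod 2) + 1
      rw [← ZMod.natCast_mod (sy M i).1 2, sy_par, ZMod.natCast_mod, Nat.cast_succ]
      generalize (i.1 : ZMod 2) = c
      revert e c; decide
  · rw [← map_hw, hw_s, ← map_mul, Equiv.swap_mul_self, map_one]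

theorem zH : z ∈ H := Subgroup.subset_closure (Or.inl rfl)
theorem hH : hw x y ∈ H := Subgroup.subset_closure (Or.inr rfl)

theorem notA : ¬ FGAct G H := by
  rintro ⟨r, d, Y, hY⟩
  set M := ∑ i, d i with hM
  obtain ⟨φ, hx, hy, -, hz⟩ := lift (relA M)
  let c := Fintype.equivFin (Fin (2 * M + 2) × ZMod 2)
  obtain ⟨m, f, e0, he0⟩ := hY _ (c.permCongrHom.toMonoidHom.comp φ)
  let e := c.trans e0
  have he : ∀ h ∈ H, ∀ u, e (φ h u) = ⟨(e u).1, Y (f (e u).1) h (e u).2⟩ := by
    intro h hh u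
    have := he0 h hh (c u)
    have e1 : pact (c.permCongrHom.toMonoidHom.comp φ) h (c u) = c (φ h u) := by simp [pact]
    rw [e1] at this
    exact this
  have hh : φ (hw x y) = fstHom _ _ (Equiv.swap (p M) (q M)) := by rw [map_hw, hx, hy, ← map_hw, hw_s]
  classical
  let J : Finset (Fin m) := (({p M, q M} : Finset _) ×ˢ (Finset.univ : Finset (ZMod 2))).image
    fun u => (e u).1
  have hJ : J.card ≤ 4 := by
    refine Finset.card_image_le.trans ?_
    rw [Finset.card_product, Finset.card_univ, ZMod.card]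
    have := Finset.card_le_two (a := p M) (b := q M)
    omega
  have h0 : ∀ j, j ∉ J → d (f j) = 0 := by
    intro j hj
    have h1 : hw (Y (f j) x) (Y (f j) y) = 1 := by
      rw [← map_hw]
      ext1 a
      have := he _ hH (e.symm ⟨j, a⟩)
      have fix : φ (hw x y) (e.symm ⟨j, a⟩) = e.symm ⟨j, a⟩ := by
        rw [hh]
        have hm : (e.symm ⟨j, a⟩).1 ∉ ({p M, q M} : Finset _) := fun hm =>
          hj (Finset.mem_image.2 ⟨e.symm ⟨j, a⟩, Finset.mem_product.2 ⟨hm, Finset.mem_univ _⟩,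
            by rw [e.apply_symm_apply]⟩)
        simp only [Finset.mem_insert, Finset.mem_singleton, not_or] at hm
        exact Prod.ext (swap_apply_of_ne_of_ne hm.1 hm.2) rfl
      rw [fix, e.apply_symm_apply] at this
      exact (eq_of_heq (Sigma.mk.inj this).2).symm
    have h2 := fin_kill (relG.map (Y (f j))) h1
    by_contra hd
    let a : Fin (d (f j)) := ⟨0, Nat.pos_of_ne_zero hd⟩
    have := he _ zH (e.symm ⟨j, a⟩)
    rw [e.apply_symm_apply, h2, hz, Perm.one_apply, ← Equiv.eq_symm_apply] at this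
    have h3 : (e.symm ⟨j, a⟩).2 + 1 = (e.symm ⟨j, a⟩).2 := congrArg Prod.snd this
    simp at h3
  have hc := Fintype.card_congr e
  simp only [Fintype.card_prod, Fintype.card_fin, ZMod.card, Fintype.card_sigma] at hc
  rw [← Finset.sum_subset (Finset.subset_univ J) fun j _ hj => h0 j hj] at hc
  have hb := Finset.sum_le_card_nsmul J (fun j => d (f j)) M fun j _ =>
    Finset.single_le_sum (f := d) (fun _ _ => Nat.zero_le _) (Finset.mem_univ _)
  rw [smul_eq_mul] at hb
  nlinarith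

noncomputable def Pu (n : ℕ) : Perm (Fin n) →* unitaryGroup (Fin n) ℂ :=
  (permMatrixHom (R := ℂ)).codRestrict _ fun σ => by
    rw [mem_unitaryGroup_iff]
    show σ⁻¹.permMatrix ℂ * star (σ⁻¹.permMatrix ℂ) = 1
    rw [star_eq_conjTranspose, conjTranspose_permMatrix, ← permMatrix_mul]; simp

theorem app_Pu {n : ℕ} (σ : Perm (Fin n)) (v : Fin n → ℂ) : app (Pu n σ) v = v ∘ ⇑(σ⁻¹) :=
  permMatrix_mulVec _

theorem app_mul {n : ℕ} (U W : unitaryGroup (Fin n) ℂ) (v : Fin n → ℂ) :
    app (U * W) v = app U (app W v) := (mulVec_mulVec _ _ _).symm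

theorem app_neg_one {n : ℕ} (v : Fin n → ℂ) : app (-1) v = -v := by
  rw [app, Unitary.coe_neg, neg_mulVec]; simp

theorem app_ext {n : ℕ} (U W : unitaryGroup (Fin n) ℂ) (h : ∀ v, app U v = app W v) : U = W :=
  Subtype.ext (Matrix.ext_of_mulVec_single fun _ => h _)

noncomputable def Bu (n : ℕ) : unitaryGroup (Fin n) ℂ :=
  ⟨diagonal fun i => (-1) ^ i.1, by
    rw [mem_unitaryGroup_iff, star_eq_conjTranspose, diagonal_conjTranspose, diagonal_mul_diagonal,
      ← diagonal_one]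
    congr 1; funext i; simp [← mul_pow]⟩

theorem app_Bu {n : ℕ} (v : Fin n → ℂ) (i : Fin n) : app (Bu n) v i = (-1) ^ i.1 * v i :=
  mulVec_diagonal _ _ _

theorem relR (M : ℕ) : Rel (Pu _ (sx M)) (Pu _ (sy M)) (Bu _) (-1) := by
  refine ⟨by simp, by simp, by simp, ?_, ?_⟩
  · apply app_ext
    intro v
    funext i
    obtain ⟨i, rfl⟩ := (sy M).surjective i
    rw [app_mul, app_mul, app_mul, app_neg_one, Pi.neg_apply, app_Bu, app_Pu, app_Pu]
    simp only [Function.comp, Perm.coe_inv, Equiv.symm_apply_apply, app_Bu]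
    rw [neg_one_pow_eq_pow_mod_two (sy M i).1, sy_par, ← neg_one_pow_eq_pow_mod_two]; ring
  · rw [← map_hw, hw_s, ← map_mul, Equiv.swap_mul_self, map_one]

theorem notR : ¬ FGRep G H := by
  rintro ⟨r, d, Y, hY⟩
  set M := ∑ i, d i with hM
  obtain ⟨φ, hx, hy, -, hz⟩ := lift (relR M)
  obtain ⟨m, f, e, he'⟩ := hY _ φ
  have he : ∀ h ∈ H, ∀ v j, e (app (φ h) v) j = app (Y (f j) h) (e v j) := he'
  have hh : φ (hw x y) = Pu _ (Equiv.swap (p M) (q M)) := by rw [map_hw, hx, hy, ← map_hw, hw_s]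
  classical
  let w : Fin (2 * M + 2) → ℂ := Pi.single (p M) 1 - Pi.single (q M) 1
  have hpq : p M ≠ q M := by simp [p, q]
  have rk : ∀ v, app (φ (hw x y)) v = v + (v (q M) - v (p M)) • w := by
    intro v
    rw [hh, app_Pu, Equiv.swap_inv]
    funext i
    simp only [w, Function.comp, swap_apply_def, Pi.add_apply, Pi.smul_apply, Pi.sub_apply,
      Pi.single_apply, smul_eq_mul]
    split_ifs with h1 h2 h2
    · exact absurd (h1.symm.trans h2) hpq
    · rw [h1]; ring
    · rw [h2]; ring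
    · ring
  have hz' : ∀ j, Y (f j) z = -1 := by
    intro j
    apply app_ext
    intro u
    have := he _ zH (e.symm (Pi.single j u)) j
    rw [hz, app_neg_one, map_neg, e.apply_symm_apply, Pi.neg_apply, Pi.single_eq_same] at this
    rw [app_neg_one, this]
  have h0 : ∀ j, d (f j) ≠ 0 → e w j ≠ 0 ∧ ∀ j', j' ≠ j → e w j' = 0 := by
    intro j hd
    have h1 : Y (f j) (hw x y) ≠ 1 := fun h1 =>
      hd (rep_kill (relG.map (Y (f j))) (by rw [← map_hw, h1]) (hz' j))
    obtain ⟨u, hu⟩ : ∃ u, app (Y (f j) (hw x y)) u ≠ u := by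
      by_contra hc
      push Not at hc
      exact h1 (app_ext _ _ fun v => by rw [hc]; simp [app])
    have key := he _ hH (e.symm (Pi.single j u))
    simp only [rk, map_add, map_smul, e.apply_symm_apply, Pi.add_apply, Pi.smul_apply] at key
    generalize e.symm (Pi.single j u) (q M) - e.symm (Pi.single j u) (p M) = c at key
    have k1 := key j
    rw [Pi.single_eq_same] at k1
    have k2 : c • e w j ≠ 0 := fun h => hu (by rw [← k1, h, add_zero])
    refine ⟨right_ne_zero_of_smul k2, fun j' hj' => ?_⟩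
    have k3 := key j'
    rw [Pi.single_eq_of_ne hj', zero_add, app, mulVec_zero] at k3
    exact (smul_eq_zero.1 k3).resolve_left (left_ne_zero_of_smul k2)
  have hc := e.finrank_eq
  rw [Module.finrank_fintype_fun_eq_card, Module.finrank_pi_fintype] at hc
  simp only [Module.finrank_fintype_fun_eq_card, Fintype.card_fin] at hc
  by_cases hex : ∃ j, d (f j) ≠ 0
  · obtain ⟨j, hj⟩ := hex
    rw [Finset.sum_eq_single j (fun j' _ hj' => by
      by_contra hd
      exact (h0 j' hd).1 ((h0 j hj).2 j' hj')) (by simp)] at hc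
    have := Finset.single_le_sum (f := d) (fun _ _ => Nat.zero_le _) (Finset.mem_univ (f j))
    omega
  · push Not at hex
    simp [hex] at hc

theorem result : ∃ (G : Type) (_ : Group G) (H : Subgroup G),
    Group.FG G ∧ Finite H ∧ ¬ FGRep G H ∧ ¬ FGAct G H :=
  ⟨G, inferInstance, H, Group.fg_of_surjective (PresentedGroup.mk_surjective rels), finH, notR,
    notA⟩

end Pool.Agent.Results.MP_af3a77_al.NotFG
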